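import Pool.Agent.Helper75.PY.Stmts

/-!
# Sheet PY, row MG2: matching an additive class with a cubic class, characteristic two
-/

set_option autoImplicit false

universe u

open Polynomial

namespace Pool.Agent.Helper40.PY

theorem exists_m {K : Type u} [Field K] [Infinite K] (e d : K) (hd : d ≠ 0) :
    ∃ m : K, m ≠ 0 ∧ d + e * m ^ 6 ≠ 0 := by
  by_contra hcon
  push Not at hcon
  have h : (X * (C d + C e * X ^ 6) : K[X]) = 0 := by
    apply Polynomial.funext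
    intro m
    simp only [eval_mul, eval_X, eval_add, eval_C, eval_pow, eval_zero]
    by_cases hm : m = 0
    · rw [hm, zero_mul]
    · rw [hcon m hm, mul_zero]
  have h1 := congrArg (fun p : K[X] => p.coeff 1) h
  rw [mul_add] at h1
  simp only [coeff_add, coeff_zero] at h1
  have h2 : (X * C d : K[X]).coeff 1 = d := by
    rw [coeff_X_mul, coeff_C_zero]
  have h3 : (X * (C e * X ^ 6) : K[X]).coeff 1 = 0 := by
    rw [coeff_X_mul, coeff_C_mul, coeff_X_pow]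
    simp
  rw [h2, h3, add_zero] at h1
  exact hd h1

theorem st_MG2 : Pool.Agent.Helper75.PY.ST_MG2.{u} := by
  intro K _ _ a b d h2 hb hd
  obtain ⟨m, hm, hne⟩ := exists_m (a ^ 2 * b ^ 3) (d ^ 2) (pow_ne_zero 2 hd)
  obtain ⟨P, hP⟩ : ∃ P : K, P = d ^ 2 / (b ^ 3 * m ^ 6) := ⟨_, rfl⟩
  obtain ⟨r, hr⟩ : ∃ r : K, r = b * m ^ 2 / d := ⟨_, rfl⟩
  obtain ⟨q, hq⟩ : ∃ q : K, q = b * m ^ 3 / d := ⟨_, rfl⟩
  have h1 : d * r ^ 3 * P = 1 := by
    rw [hr, hP]
    field_simp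
  have h3 : b * q ^ 2 * P = 1 := by
    rw [hq, hP]
    field_simp
  have h4 : d * r ^ 3 = b * q ^ 2 := by
    rw [hr, hq]
    field_simp
  refine ⟨r * (P + a ^ 2), q * (a ^ 3 + (a + 1) * P), P + a ^ 2 + a, ?_, ?_⟩
  · refine mul_ne_zero ?_ ?_
    · rw [hr]
      exact div_ne_zero (mul_ne_zero hb (pow_ne_zero 2 hm)) hd
    · intro h
      apply hne
      have h5 : P * (b ^ 3 * m ^ 6) = d ^ 2 := by
        rw [hP]
        field_simp
      linear_combination (b ^ 3 * m ^ 6) * h - h5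
  · linear_combination (P ^ 2 + 3 * P * a ^ 2 + 3 * a ^ 4) * h1 -
      (2 * a ^ 3 * (a + 1) + (a + 1) ^ 2 * P) * h3 + a ^ 6 * h4 +
      (-P * (2 * a + 1) - 2 * a ^ 3 - a ^ 2 - a) * h2

end Pool.Agent.Helper40.PY
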